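import Pool.Agent.helper42.WB.L1
import Pool.Agent.helper19.WB.B1a
import Pool.Agent.helper19.WB.B3a
import Pool.Agent.helper19.WB.B5a
import Pool.Agent.helper2.WB.B4b

/-! Part L2: the tiling of hyperbolic four space by the polytope `PP`. -/

set_option autoImplicit false
open Matrix MeasureTheory

namespace Pool.Agent.helper21.WB

namespace L2

/-- the direction of the centre of `PP` -/
noncomputable def vc : I → ℝ := Sum.elim (fun _ => 1) (fun _ => 3)

theorem bl_nr_vc (a : Fin 10) : bl (nr a) vc = 1 := by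
  rw [bl_apply, Fin.sum_univ_four]
  unfold nr nv vc
  simp only [Sum.elim_inl, Sum.elim_inr]
  fin_cases a <;> simp [nvt] <;> norm_num

/-- the centre -/
noncomputable def yc : X := fun _ => 1 / Real.sqrt 5

theorem lift_yc : lift yc = (1 / Real.sqrt 5) • vc := by
  have h5 : (0:ℝ) < Real.sqrt 5 := Real.sqrt_pos.2 (by norm_num)
  have h5' : Real.sqrt 5 ^ 2 = 5 := Real.sq_sqrt (by norm_num)
  ext i
  rcases i with i | i
  · simp [lift_inl, yc, vc]
  · show lift yc o = _
    rw [lift_inr]
    have : (1 + ∑ i : Fin 4, yc i ^ 2) = (3 / Real.sqrt 5) ^ 2 := by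
      simp only [yc, Finset.sum_const, Finset.card_univ, Fintype.card_fin]
      rw [div_pow, div_pow, h5']
      norm_num
    rw [this, Real.sqrt_sq (by positivity)]
    simp only [vc, Pi.smul_apply, smul_eq_mul, Sum.elim_inr]
    ring

theorem inG_of_mem {g : GLI} (hg : g ∈ Wg) : InG g := disc_Wg.inG g hg

theorem rf_mem (a : Fin 10) : rf a ∈ Wg := ⟨csC.simple a, rep_simple a⟩

/-- the function which is minimised -/
noncomputable def fm (y : X) (g : GLI) : ℝ := ch yc (act g y)

theorem fm_finite (y : X) (B : ℝ) : {g | g ∈ Wg ∧ fm y g ≤ B}.Finite := by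
  refine (finite_near disc_Wg y 0 (hd y yc + Real.arcosh B)).subset ?_
  rintro g ⟨hg, hB⟩
  refine ⟨hg, y, (hd_self y).le, ?_⟩
  refine (hd_triangle y yc (act g y)).trans ?_
  gcongr
  unfold hd
  have h1 : 1 ≤ ch yc (act g y) := one_le_ch _ _
  have hB' : ch yc (act g y) ≤ B := hB
  exact (Real.arcosh_le_arcosh (by linarith) (by linarith)).2 hB'

theorem lift_rf (a : Fin 10) (y : X) :
    lift (act (rf a) y) = lift y - (2 * bl (nr a) (lift y)) • nr a := by
  rw [lift_act (rfM_inG a), rf_val, rfM_mulVec]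

theorem fm_rf (y : X) {g : GLI} (hg : g ∈ Wg) (a : Fin 10) :
    fm y (rf a * g) = fm y g + 2 * (1 / Real.sqrt 5) * bl (nr a) (lift (act g y)) := by
  unfold fm ch
  rw [act_mul (inG_of_mem hg), lift_rf, bl_sub_right, bl_smul_right, lift_yc, bl_smul_left,
    bl_smul_left, bl_comm vc (nr a), bl_nr_vc]
  ring

end L2

open L2

/-- every point can be moved into `PP` -/
theorem exists_mem_PP (y : X) : ∃ g ∈ Wg, act g y ∈ PP := by
  obtain ⟨g, hg, hmin⟩ := Set.exists_min_image {g | g ∈ Wg ∧ fm y g ≤ fm y 1} (fm y)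
    (fm_finite y _) ⟨1, Wg.one_mem, le_rfl⟩
  refine ⟨g, hg.1, ?_⟩
  by_contra hcon
  simp only [PP, Set.mem_ofPred_eq, not_forall, not_le] at hcon
  obtain ⟨a, ha⟩ := hcon
  have h5 : (0:ℝ) < Real.sqrt 5 := Real.sqrt_pos.2 (by norm_num)
  have hlt : fm y (rf a * g) < fm y g := by
    rw [fm_rf y hg.1 a]
    have : 2 * (1 / Real.sqrt 5) * bl (nr a) (lift (act g y)) < 0 :=
      mul_neg_of_pos_of_neg (by positivity) ha
    linarith
  have := hmin (rf a * g) ⟨Wg.mul_mem (rf_mem a) hg.1, by linarith [hg.2]⟩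
  linarith

namespace L2

theorem continuous_face (a : Fin 10) : Continuous (fun y : X => bl (nr a) (lift y)) := by
  simp only [bl_apply]
  have hl : ∀ i, Continuous fun y : X => lift y i :=
    fun i => (continuous_apply i).comp continuous_lift
  refine Continuous.sub (continuous_finsetSum _ fun i _ => ?_) ?_
  · exact continuous_const.mul (hl _)
  · exact continuous_const.mul (hl _)

theorem isClosed_PP : IsClosed PP := by
  have : PP = ⋂ a, {y | 0 ≤ bl (nr a) (lift y)} := by ext y; simp [PP]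
  rw [this]
  exact isClosed_iInter fun a => isClosed_le continuous_const (continuous_face a)

theorem rf_ne_one (a : Fin 10) : rf a ≠ 1 := by
  intro h
  have h1 : rfM a *ᵥ nr a = nr a := by
    have : (rf a).val = 1 := by rw [h]; rfl
    rw [← rf_val, this, Matrix.one_mulVec]
  rw [rfM_mulVec, bl_nr, gr_self] at h1
  have h2 : nr a = 0 := by
    have h3 : (2:ℝ) • nr a = 0 := by
      have := sub_eq_self.1 h1
      simpa using this
    exact (smul_eq_zero.1 h3).resolve_left (by norm_num)
  have h4 := bl_nr a a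
  rw [h2, gr_self] at h4
  simp [bl] at h4

theorem null_face {g : GLI} (hg : g ∈ Wg) (a : Fin 10) :
    μ {y | bl (nr a) (lift (act g y)) = 0} = 0 := by
  have hgG := inG_of_mem hg
  have hne : g⁻¹ * rf a * g ≠ 1 := by
    intro h
    apply rf_ne_one a
    calc rf a = g * (g⁻¹ * rf a * g) * g⁻¹ := by group
      _ = 1 := by rw [h]; group
  refine measure_mono_null ?_ (μ_fix ((hgG.inv.mul (rfM_inG a)).mul hgG) hne)
  intro y hy
  have hy' : bl (nr a) (lift (act g y)) = 0 := hy
  show act (g⁻¹ * rf a * g) y = y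
  rw [act_mul hgG, act_mul (rfM_inG a)]
  have : act (rf a) (act g y) = act g y := by
    apply lift_injective
    rw [lift_rf, hy']
    simp
  rw [this, act_inv_act hgG]

end L2

theorem isFD_PP : IsFD Wg PP := by
  refine ⟨isClosed_PP.measurableSet, ?_⟩
  have : Countable Wg := countable_of_disc disc_Wg
  have hnull : ∀ᵐ y ∂μ, ∀ g : Wg, ∀ a, bl (nr a) (lift (act g.1 y)) ≠ 0 := by
    rw [ae_all_iff]
    intro g
    rw [ae_all_iff]
    intro a
    rw [ae_iff]
    simpa using null_face g.2 a
  filter_upwards [hnull] with y hy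
  obtain ⟨g, hg, hgy⟩ := exists_mem_PP y
  refine ⟨act g y, ⟨hgy, g, hg, rfl⟩, ?_⟩
  rintro z ⟨hz, g', hg', rfl⟩
  have hpos : ∀ a, 0 < bl (nr a) (lift (act g y)) := fun a =>
    lt_of_le_of_ne (hgy a) (hy ⟨g, hg⟩ a).symm
  obtain ⟨w, hw⟩ : g' * g⁻¹ ∈ Wg := Wg.mul_mem hg' (Wg.inv_mem hg)
  by_cases h1 : w = 1
  · rw [h1, map_one] at hw
    have : g' = g := by rw [← mul_one g', ← inv_mul_cancel g, ← mul_assoc, ← hw, one_mul]
    rw [this]
  · exfalso
    refine act_not_mem_PP h1 hpos ?_
    rw [hw, ← act_mul (inG_of_mem hg), inv_mul_cancel_right]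
    exact hz

namespace L2

theorem sorted_bound (a b c d t : ℤ) (hc : 0 ≤ c) (hd : 0 ≤ d) (hcb : c ≤ b) (hdb : d ≤ b)
    (hba : b ≤ a) (hab : a + b ≤ t) (h : t ^ 2 = 1 + a ^ 2 + b ^ 2 + c ^ 2 + d ^ 2) : t ≤ 2 := by
  obtain ⟨k, hk⟩ : ∃ k, t = a + b + k := ⟨t - a - b, by ring⟩
  have hk0 : 0 ≤ k := by linarith
  subst hk
  have hb0 : 0 ≤ b := hc.trans hcb
  have ha0 : 0 ≤ a := hb0.trans hba
  have e : 1 = k ^ 2 + 2 * k * (a + b) + 2 * b * (a - b) + (b ^ 2 - c ^ 2) + (b ^ 2 - d ^ 2) := by
    linarith [h, sq_nonneg k]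
  have h1 : 0 ≤ b ^ 2 - c ^ 2 := by nlinarith
  have h2 : 0 ≤ b ^ 2 - d ^ 2 := by nlinarith
  have h3 : 0 ≤ 2 * b * (a - b) := by
    have : 0 ≤ b * (a - b) := mul_nonneg hb0 (by linarith)
    linarith
  have h4 : 0 ≤ 2 * k * (a + b) := by positivity
  rcases hk0.eq_or_lt with hk | hk
  · -- `k = 0`
    rw [← hk] at e ⊢
    have h5 : b * (a - b) = 0 := by
      have : 0 ≤ b * (a - b) := mul_nonneg hb0 (by linarith)
      nlinarith
    rcases mul_eq_zero.1 h5 with h6 | h6
    · -- `b = 0`
      subst h6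
      have : c = 0 := by omega
      have : d = 0 := by omega
      subst_vars
      simp at e
    · have hab' : a = b := by linarith
      subst hab'
      by_contra hcon
      have ha2 : 2 ≤ a := by omega
      have e' : 1 = (a ^ 2 - c ^ 2) + (a ^ 2 - d ^ 2) := by linarith
      rcases hcb.eq_or_lt with hca | hca
      · subst hca
        rcases hdb.eq_or_lt with hda | hda
        · subst hda; simp at e'
        · nlinarith
      · nlinarith
  · -- `k ≥ 1`
    have hk1 : 1 ≤ k := hk
    have h5 : k = 1 := by nlinarith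
    subst h5
    have h6 : a + b = 0 := by nlinarith
    omega

theorem bound4 (a b c d t : ℤ) (ha : 0 ≤ a) (hb : 0 ≤ b) (hc : 0 ≤ c) (hd : 0 ≤ d)
    (h1 : a + b ≤ t) (h2 : a + c ≤ t) (h3 : a + d ≤ t) (h4 : b + c ≤ t) (h5 : b + d ≤ t)
    (h6 : c + d ≤ t) (h : t ^ 2 = 1 + a ^ 2 + b ^ 2 + c ^ 2 + d ^ 2) : t ≤ 2 := by
  rcases le_total a b with k1 | k1 <;> rcases le_total a c with k2 | k2 <;>
  rcases le_total a d with k3 | k3 <;> rcases le_total b c with k4 | k4 <;>
  rcases le_total b d with k5 | k5 <;> rcases le_total c d with k6 | k6 <;>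
  first
    | exact sorted_bound a b c d t (by omega) (by omega) (by omega) (by omega) (by omega)
        (by omega) (by linarith)
    | exact sorted_bound a c b d t (by omega) (by omega) (by omega) (by omega) (by omega)
        (by omega) (by linarith)
    | exact sorted_bound a d b c t (by omega) (by omega) (by omega) (by omega) (by omega)
        (by omega) (by linarith)
    | exact sorted_bound b a c d t (by omega) (by omega) (by omega) (by omega) (by omega)
        (by omega) (by linarith)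
    | exact sorted_bound b c a d t (by omega) (by omega) (by omega) (by omega) (by omega)
        (by omega) (by linarith)
    | exact sorted_bound b d a c t (by omega) (by omega) (by omega) (by omega) (by omega)
        (by omega) (by linarith)
    | exact sorted_bound c a b d t (by omega) (by omega) (by omega) (by omega) (by omega)
        (by omega) (by linarith)
    | exact sorted_bound c b a d t (by omega) (by omega) (by omega) (by omega) (by omega)
        (by omega) (by linarith)
    | exact sorted_bound c d a b t (by omega) (by omega) (by omega) (by omega) (by omega)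
        (by omega) (by linarith)
    | exact sorted_bound d a b c t (by omega) (by omega) (by omega) (by omega) (by omega)
        (by omega) (by linarith)
    | exact sorted_bound d b a c t (by omega) (by omega) (by omega) (by omega) (by omega)
        (by omega) (by linarith)
    | exact sorted_bound d c a b t (by omega) (by omega) (by omega) (by omega) (by omega)
        (by omega) (by linarith)

/-- integral Lorentz matrices moving `0` into `PP` are small -/
theorem oo_le_two {k : GLI} (hk : k ∈ GZ) (hP : act k 0 ∈ PP) : k.val o o ≤ 2 := by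
  obtain ⟨hkG, hint⟩ := hk
  choose z hz using hint
  have hv : ∀ i, lift (act k 0) i = (z i o : ℝ) := by
    intro i
    rw [lift_act hkG, mulVec_lift_zero, hz]
  have hn : ∀ a, 0 ≤ bl (nr a) (lift (act k 0)) := hP
  simp only [bl_apply, Fin.sum_univ_four, nr, nv, Sum.elim_inl, Sum.elim_inr, hv] at hn
  have hs : (z o o : ℝ) ^ 2 = 1 + ∑ i : Fin 4, (z (Sum.inl i) o : ℝ) ^ 2 := by
    have := bl_lift (act k 0)
    rw [bl_apply, Fin.sum_univ_four] at this
    simp only [hv] at this
    rw [Fin.sum_univ_four]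
    nlinarith
  rw [Fin.sum_univ_four] at hs
  have n0 := hn 0
  have n1 := hn 1
  have n2 := hn 2
  have n3 := hn 3
  have n4 := hn 4
  have n5 := hn 5
  have n6 := hn 6
  have n7 := hn 7
  have n8 := hn 8
  have n9 := hn 9
  simp [nvt] at n0 n1 n2 n3 n4 n5 n6 n7 n8 n9
  rw [hz]
  have hs' : (z o o) ^ 2 = 1 + (z (Sum.inl 0) o) ^ 2 + (z (Sum.inl 1) o) ^ 2
      + (z (Sum.inl 2) o) ^ 2 + (z (Sum.inl 3) o) ^ 2 := by
    have : ((z o o : ℝ)) ^ 2 = 1 + (z (Sum.inl 0) o : ℝ) ^ 2 + (z (Sum.inl 1) o : ℝ) ^ 2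
      + (z (Sum.inl 2) o : ℝ) ^ 2 + (z (Sum.inl 3) o : ℝ) ^ 2 := by linarith
    exact_mod_cast this
  have := bound4 (z (Sum.inl 0) o) (z (Sum.inl 1) o) (z (Sum.inl 2) o) (z (Sum.inl 3) o) (z o o)
    (by exact_mod_cast n0) (by exact_mod_cast n1) (by exact_mod_cast n2) (by exact_mod_cast n3)
    (by have : (z (Sum.inl 0) o : ℝ) + z (Sum.inl 1) o ≤ z o o := by linarith
        exact_mod_cast this)
    (by have : (z (Sum.inl 0) o : ℝ) + z (Sum.inl 2) o ≤ z o o := by linarith
        exact_mod_cast this)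
    (by have : (z (Sum.inl 0) o : ℝ) + z (Sum.inl 3) o ≤ z o o := by linarith
        exact_mod_cast this)
    (by have : (z (Sum.inl 1) o : ℝ) + z (Sum.inl 2) o ≤ z o o := by linarith
        exact_mod_cast this)
    (by have : (z (Sum.inl 1) o : ℝ) + z (Sum.inl 3) o ≤ z o o := by linarith
        exact_mod_cast this)
    (by have : (z (Sum.inl 2) o : ℝ) + z (Sum.inl 3) o ≤ z o o := by linarith
        exact_mod_cast this)
    hs'
  exact_mod_cast this

end L2

/-- `W` has finite index in `O^+(4,1;ℤ)` -/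
theorem relIndex_Wg_GZ : Wg.relIndex GZ ≠ 0 := by
  have hfin := finite_fn_le disc_GZ (Real.sqrt 17)
  set T : Set GLI := {γ | γ ∈ GZ ∧ fn γ.val ≤ Real.sqrt 17} with hT
  have : Finite T := hfin
  have hsurj : Function.Surjective (fun t : T =>
      (QuotientGroup.mk (⟨t.1, t.2.1⟩⁻¹ : GZ) : GZ ⧸ (Wg.subgroupOf GZ))) := by
    intro q
    induction q using QuotientGroup.induction_on with
    | _ x =>
      obtain ⟨g, hg, hgP⟩ := exists_mem_PP (act (x⁻¹ : GZ).1 0)
      have hx : (x⁻¹ : GZ).1 ∈ GZ := (x⁻¹ : GZ).2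
      have hk : g * (x⁻¹ : GZ).1 ∈ GZ := GZ.mul_mem (Wg_le_GZ hg) hx
      rw [← act_mul hx.1] at hgP
      have h2 := oo_le_two hk hgP
      refine ⟨⟨g * (x⁻¹ : GZ).1, hk, ?_⟩, ?_⟩
      · apply Real.le_sqrt_of_sq_le
        rw [fn_sq_of_inG hk.1]
        have := hk.1.2
        nlinarith
      · simp only
        rw [QuotientGroup.eq, Subgroup.mem_subgroupOf]
        simp only [inv_inv, Subgroup.coe_mul, Subgroup.coe_inv]
        rw [mul_assoc, inv_mul_cancel, mul_one]
        exact hg
  have : Finite (GZ ⧸ (Wg.subgroupOf GZ)) := Finite.of_surjective _ hsurj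
  rw [Subgroup.relIndex]
  exact Subgroup.index_ne_zero_of_finite

end Pool.Agent.helper21.WB
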